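import Pool.Agent.helper45.FPB.FP

/-!
# MP_405bd9_al: the polynomial of a positive class of `W(B_n)` or `W(D_n)` lies in `ℕ[v⁴]`
-/

namespace Pool.Agent.Results.MP_405bd9_al.FourthPowers

open Module Polynomial Pool.Agent.helper27.PC Pool.Agent.helper45.FPB

/-- **Theorem.** Let `W` be the Weyl group of type `B_n` (`n ≥ 1`) or `D_n` (`n ≥ 3`). Every conjugacy class of
`W` contains an element `w` of minimal length such that, if `N^w ∈ ℕ[v²]`, then `N^w ∈ ℕ[v⁴]`. (As `N^w` is
the same for all elements of minimal length of the class, this says that `N_C ∈ ℕ[v⁴]` for every positive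
conjugacy class `C`.) -/
theorem result (t : Bool) (n : ℕ) (hn : if t then 1 ≤ n else 3 ≤ n) (H : Type) [Ring H] [Algebra A H]
    (T : Basis (Wty t n) A H) (hT : GHecke (genTy t n) T) (w₀ : Wty t n) :
    ∃ w : Wty t n, IsConj w₀ w ∧ GMin (genTy t n) w ∧
      (NatPoly (GN (genTy t n) T w) → NatPoly4 (GN (genTy t n) T w)) :=
  FP t n hn H T hT w₀

end Pool.Agent.Results.MP_405bd9_al.FourthPowers
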