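import Pool.Agent.helper32.PN.All

/-!
# MP_405bd9_al: `-1` is isolated among the positive classes of `W(B_n)` and `W(D_n)`
-/

set_option autoImplicit false

namespace Pool.Agent.Results.MP_405bd9_al.IsolatedMinusOne

open Module Polynomial Pool.Agent.helper27.PC

/-- The coordinates `i` with `w(e_i) ≠ -e_i` (`(i, true)` is `e_i`, `(i, false)` is `-e_i`). -/
def notNegated {n : ℕ} (w : W n) : Finset (Fin n) :=
  Finset.univ.filter fun i : Fin n => (w : Equiv.Perm (Fin n × Bool)) (i, true) ≠ (i, false)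

/-- **Theorem.** For every `m` there is `n₀` such that for all `n ≥ n₀`: if an element `w` of the Weyl group
`W(B_n)` (`t = true`) or `W(D_n)` (`t = false`) is not `-1`, and `w(e_i) = -e_i` for all but at most `m` of the
coordinates `i`, then the conjugacy class of `w` is not positive. -/
theorem result (m : ℕ) : ∃ n₀ : ℕ, ∀ (t : Bool) (n : ℕ), n₀ ≤ n → ∀ (H : Type) [Ring H] [Algebra A H]
    (T : Basis (Wty t n) A H), GHecke (genTy t n) T → ∀ w : Wty t n,
    (notNegated (w : W n)).Nonempty → (notNegated (w : W n)).card ≤ m → NotPosClass T w := by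
  obtain ⟨n₀, h⟩ := Pool.Agent.PN.FIN Pool.Agent.PN.ALL_tau Pool.Agent.PN.GRP m
  refine ⟨n₀, fun t n hn H _ _ T hT w hw hm => h t n hn H T hT w ?_ hm⟩
  obtain ⟨i, hi⟩ := hw
  exact ⟨i, (Finset.mem_filter.1 hi).2⟩

end Pool.Agent.Results.MP_405bd9_al.IsolatedMinusOne
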