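import Pool.Agent.helper27.PC3.Fin8

/-!
# MP_405bd9_al: positive conjugacy classes of `W(B_n)` and `W(D_n)`
-/

namespace Pool.Agent.Results.MP_405bd9_al.PositiveClasses

open Module Polynomial Pool.Agent.helper27.PC

/-- **Theorem.** Let `W` be the Weyl group of type `B_n` (`n ≥ 1`) or `D_n` (`n ≥ 3`).

(a) The conjugacy class of an element `w₀ ≠ 1` that is not elliptic is not positive.

Let `l` be a partition of `n` and let `w₀` be an (elliptic) element with negative cycle type `l`.

(b) If every part of `l` is larger than the sum of all strictly smaller parts, then the class of `w₀` is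
positive.

(c) The class of `w₀` is not positive if, in increasing order (and with the exceptions listed in `Block1` and
`Block2`),
* `l = L ++ B ++ c :: l₁`, where the parts `B` have the same parity and are larger than the sum of `L`, and `c`
  has the other parity and `c ≤ ∑ B` (type `B`), `c < ∑ B` (type `D`), or
* `l = L ++ B₀ ++ B ++ c :: l₁`, where the number of parts `B` is odd, the parts `B` have the same parity and are
  larger than the sum of `L ++ B₀`, the parts `B₀` have the same parity and are larger than the sum of `L`, and `c`
  has the parity different from the parts `B`, and `∑ B < c ≤ ∑ B₀ + ∑ B` (type `D`: `<`). -/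
theorem result (t : Bool) (n : ℕ) (hn : if t then 1 ≤ n else 3 ≤ n) (H : Type) [Ring H] [Algebra A H]
    (T : Basis (Wty t n) A H) (hT : GHecke (genTy t n) T) (w₀ : Wty t n) :
    (w₀ ≠ 1 → NonElliptic (w₀ : W n) → NotPosClass T w₀) ∧
    ∀ (l : List ℕ) (w : Wty t n), Part n l → NegBlocks (w : W n) 0 l → IsConj w₀ w →
      (SuperDecreasing l → PosClass T w₀) ∧ (NegType t l → NotPosClass T w₀) := by
  have hn' : if t then 1 ≤ n else 2 ≤ n := by
    cases t
    · have h3 : 3 ≤ n := hn
      show 2 ≤ n
      omega
    · exact hn
  exact ⟨fun h1 h2 => S1 t n hn H T hT w₀ h1 h2, fun l w hl hw hc =>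
    ⟨fun hsd => S2 t n hn' H T hT l hl hsd w₀ w hw hc,
      fun hb => S3N t n hn' H T hT l hl hb w₀ w hw hc⟩⟩

end Pool.Agent.Results.MP_405bd9_al.PositiveClasses
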