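import Pool.Agent.helper45.TC.All

/-!
# MP_405bd9_al: the positive classes with at most three negative cycles
-/

set_option autoImplicit false

namespace Pool.Agent.Results.MP_405bd9_al.ThreeCycles

open Module Polynomial Pool.Agent.helper27.PC Pool.Agent.TC

/-- **Theorem.** Let `W` be the Weyl group of type `B_n` (`t = true`, `n ≥ 1`) or `D_n` (`t = false`, `n ≥ 2`), and let `w₀` be an
(elliptic) element whose negative cycle type `l` is a partition of `n` with at most three parts. The class of `w₀` is positive if
`l` has at most two parts or `l = (s, a, b)`, `s ≤ a ≤ b`, with `a + s < b` or `b - a` even (`Crit l`), and it is not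
positive otherwise. (In type `D_n` the number of parts is even.) -/
theorem result (t : Bool) (n : ℕ) (hn : if t then 1 ≤ n else 2 ≤ n) (H : Type) [Ring H] [Algebra A H]
    (T : Basis (Wty t n) A H) (hT : GHecke (genTy t n) T) (l : List ℕ) (hl : Part n l) (h3 : l.length ≤ 3)
    (w₀ w : Wty t n) (hw : NegBlocks (w : W n) 0 l) (hw₀ : IsConj w₀ w) :
    (Crit l → PosClass T w₀) ∧ (¬ Crit l → NotPosClass T w₀) :=
  main t n hn H T hT l hl h3 w₀ w hw hw₀

end Pool.Agent.Results.MP_405bd9_al.ThreeCycles
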